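import Pool.Agent.H967R3.Pen.Final

/-!
# MP_e87149_gt, Q1: the answer is negative

The definitions (file `Pool/Agent/H967R3/Pen/Defs.lean`) describe the four-punctured sphere `S`
through its fundamental group `F3 = ⟨p 0, p 1, p 2, p 3 | p 0 * p 1 * p 2 * p 3 = 1⟩`:

* `Geometric ε φ`: the automorphism `φ` of `F3` maps the four peripheral loops, up to
  conjugacy, to a permutation of their `ε`-th powers.  By the Dehn-Nielsen-Baer theorem the
  extended mapping class group of `S` is the group of the outer classes of these
  automorphisms, `ε = 1` for the orientation-preserving and `ε = -1` for the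
  orientation-reversing mapping classes.
* `curve0 = p 0 * p 1` is a simple closed curve with two punctures on each side; every essential
  simple closed curve of `S` is `φ curve0` for some `φ` with `Geometric 1 φ`.
* `twist0` is the Dehn twist about `curve0`; the Dehn twist about `φ curve0` is
  `φ * twist0 * φ⁻¹` (`IsDehnTwist`).  (Reversing the sign convention for twists amounts to
  exchanging the two multicurves in Penner's construction.)
* `IsMulticurve A`: `A` is a set of pairwise commuting Dehn twists, that is the set of the
  twists about the components of a multicurve.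
* `Fills A B`: no essential simple closed curve is disjoint from all the components.
* `ArisesFromPenner h`: `h` is a product of twists from `A` and inverse twists from `B`, every
  element of `A` and of `B` occurring at least once, for some filling pair of multicurves.
* `IsPseudoAnosov f`: no positive power of `f` preserves the isotopy class of an (unoriented)
  essential simple closed curve; by the Nielsen-Thurston classification these are the
  pseudo-Anosov mapping classes.

The example acts on the double cover of `S` by a torus, up to sign, by the matrix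
`[[3, 1], [1, 0]]`, of determinant `-1` and stretch factor `(3 + √13) / 2`.
-/

set_option autoImplicit false

namespace Pool.Agent.Results.MP_e87149_gt.FourPuncturedSphere

open Pool.Agent.H967R3.Pen

/-- There is an orientation-reversing pseudo-Anosov mapping class `f` of the four-punctured
sphere such that no positive power `f ^ k` arises from Penner's construction. -/
theorem result : ∃ f : MulAut F3, Geometric (-1) f ∧ IsPseudoAnosov f ∧
    ∀ k : ℕ, 1 ≤ k → ¬ ArisesFromPenner ((f ^ k : MulAut F3) : OutF3) :=
  main

/-- A second curve, meeting `curve0` twice. -/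
def second : MulAut F3 := refl * half * refl

lemma second_geometric : Geometric 1 second := by
  have h := (refl_geometric.mul half_geometric).mul refl_geometric
  simpa [second] using h

lemma lin_second : lin second = !![1, 0; 1, 1] := by
  have h1 := half_geometric.parPres
  have h2 := refl_geometric.parPres
  rw [second, lin_mul (h2.mul h1) h2, lin_mul h2 h1, lin_half, lin_refl]
  ext i j
  fin_cases i <;> fin_cases j <;> simp [Matrix.mul_apply, Fin.sum_univ_two]

lemma geometric_one : Geometric 1 (1 : MulAut F3) :=
  ⟨1, fun i => by simpa using IsConj.refl (per i)⟩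

/-- Two twists which commute are about parallel curves. -/
lemma parallel {φ ψ : MulAut F3} (hφ : Geometric 1 φ) (hψ : Geometric 1 ψ)
    (h : Commute ((φ * twist0 * φ⁻¹ : MulAut F3) : OutF3)
      ((ψ * twist0 * ψ⁻¹ : MulAut F3) : OutF3)) :
    lin φ 0 0 * lin ψ 1 0 - lin ψ 0 0 * lin φ 1 0 = 0 := by
  obtain ⟨hp, hl⟩ := lin_twist hφ
  obtain ⟨hp', hl'⟩ := lin_twist hψ
  have h3 := lin_out (hp'.mul hp)
    (ψ := (φ * twist0 * φ⁻¹) * (ψ * twist0 * ψ⁻¹)) (by
      rw [QuotientGroup.mk_mul, QuotientGroup.mk_mul _ (φ * twist0 * φ⁻¹) (ψ * twist0 * ψ⁻¹)]
      exact h.eq.symm)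
  rw [lin_mul hp hp', lin_mul hp' hp, hl, hl'] at h3
  exact parallel_of_commute h3

/-- Sanity check: Penner's construction produces mapping classes in this model. -/
theorem arises_nonempty : ∃ h : OutF3, ArisesFromPenner h := by
  have e0 : ((1 * twist0 * 1⁻¹ : MulAut F3) : OutF3) = ((twist0 : MulAut F3) : OutF3) := by
    simp
  refine ⟨_, {((1 * twist0 * 1⁻¹ : MulAut F3) : OutF3)},
    {((second * twist0 * second⁻¹ : MulAut F3) : OutF3)}, ⟨?_, ?_⟩, ⟨?_, ?_⟩, ?_,
    [((1 * twist0 * 1⁻¹ : MulAut F3) : OutF3),
      ((second * twist0 * second⁻¹ : MulAut F3) : OutF3)⁻¹], ?_, ?_, ?_, rfl⟩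
  · rintro t rfl
    exact ⟨1, geometric_one, rfl⟩
  · rintro s rfl t rfl
    exact Commute.refl _
  · rintro t rfl
    exact ⟨second, second_geometric, rfl⟩
  · rintro s rfl t rfl
    exact Commute.refl _
  · rintro t ⟨φ, hφ, rfl⟩
    by_contra hcon
    push Not at hcon
    have c1 := parallel geometric_one hφ (hcon _ (Or.inl rfl))
    have c2 := parallel second_geometric hφ (hcon _ (Or.inr rfl))
    have hd := hφ.det
    rw [Matrix.det_fin_two] at hd
    simp only [Units.val_one] at hd
    rw [lin_one] at c1
    rw [lin_second] at c2
    simp at c1 c2
    rw [c1] at c2 hd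
    have : lin φ 0 0 = 0 := by linarith
    rw [this] at hd
    simp at hd
  · intro g hg
    simp only [List.mem_cons, List.not_mem_nil, or_false] at hg
    rcases hg with rfl | rfl
    · exact Or.inl rfl
    · exact Or.inr (by simp)
  · rintro a rfl
    simp
  · rintro b rfl
    simp

end Pool.Agent.Results.MP_e87149_gt.FourPuncturedSphere
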